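import Mathlib

set_option autoImplicit false

/-!
# MP_c3cac0_an: the mean value inequality for all `n`-fold symmetric Blaschke products whose
nonzero zeros form two orbits (`n = 1`: all products of degree three)
-/

namespace Pool.Agent.Results.MP_c3cac0_an.TwoOrbits

open Polynomial

/-- the key real inequality -/
lemma core_ineq (q t μ u : ℝ) (hq0 : 0 < q) (hq1 : q < 1) (ht0 : 0 < t) (ht1 : t < 1)
    (hμ : 0 ≤ μ) (hu : 0 ≤ u)
    (hG : 0 ≤ u ^ 2 + (1 + q) * (2 + μ * (1 + t)) * u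
      + (q * (1 + t) * (3 - t + 2 * μ * (1 - t)) - t * (1 + q) ^ 2)) :
    (1 - t) * (t - q * (3 - t) * (1 + t) + q ^ 2 * (1 + t + t ^ 2) - 2 * q * (μ * (1 - t ^ 2))) ≤
      u * (2 * (1 - q * t ^ 2) + (1 + q) * (μ * (1 - t ^ 2))) := by
  have he : 0 < 1 - t ^ 2 := by nlinarith
  obtain ⟨M, hM⟩ : ∃ M : ℝ, M = μ * (1 - t ^ 2) := ⟨_, rfl⟩
  have hM0 : 0 ≤ M := by rw [hM]; positivity
  have hD : 0 < 1 - q * t ^ 2 := by nlinarith [mul_pos hq0 ht0, mul_pos ht0 ht0]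
  obtain ⟨Γ, hΓ⟩ : ∃ Γ : ℝ, Γ = t - q * (3 - t) * (1 + t) + q ^ 2 * (1 + t + t ^ 2)
    - 2 * q * M := ⟨_, rfl⟩
  obtain ⟨w, hw⟩ : ∃ w : ℝ, w = 2 * (1 - q * t ^ 2) + (1 + q) * M := ⟨_, rfl⟩
  have hw0 : 0 < w := by rw [hw]; positivity
  obtain ⟨l, hl⟩ : ∃ l : ℝ, l = 2 + μ * (1 + t) := ⟨_, rfl⟩
  have hl0 : 0 < l := by rw [hl]; positivity
  obtain ⟨G0, hG0⟩ : ∃ G0 : ℝ, G0 = q * (1 + t) * (3 - t + 2 * μ * (1 - t))
    - t * (1 + q) ^ 2 := ⟨_, rfl⟩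
  rw [← hM, ← hΓ, ← hw]
  rw [← hl, ← hG0] at hG
  rcases le_total (q * (1 + t - t ^ 2 + M)) t with hc | hc
  · -- case I
    by_contra hcon
    push Not at hcon
    have hH : ((1 - t) * Γ) ^ 2 + (1 + q) * l * ((1 - t) * Γ) * w + G0 * w ^ 2 ≤ 0 := by
      have e : ((1 - t) * Γ) ^ 2 + (1 + q) * l * ((1 - t) * Γ) * w + G0 * w ^ 2 =
        -((1 - q) ^ 2 * ((t - q * (1 + t - t ^ 2 + M)) *
          ((1 + t) * (t * (3 - t) * (1 - q) + q * ((1 + t) * (1 - t ^ 2)))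
            + M * (2 * t + q * (1 + t ^ 2))))) := by
        rw [hΓ, hl, hw, hG0, hM]; ring
      rw [e]
      have h3 : 0 ≤ (1 + t) * (t * (3 - t) * (1 - q) + q * ((1 + t) * (1 - t ^ 2)))
            + M * (2 * t + q * (1 + t ^ 2)) := by
        have h4 : 0 ≤ t * (3 - t) := by nlinarith
        have h5 : 0 ≤ 1 - q := by linarith
        have h6 := he.le
        positivity
      have h6 : 0 ≤ t - q * (1 + t - t ^ 2 + M) := by linarith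
      have := mul_nonneg (sq_nonneg (1 - q)) (mul_nonneg h6 h3)
      linarith
    have huw : 0 ≤ u * w := mul_nonneg hu hw0.le
    have h7 : (u * w) ^ 2 < ((1 - t) * Γ) ^ 2 := pow_lt_pow_left₀ hcon huw two_ne_zero
    have h8 : (1 + q) * l * (u * w) * w ≤ (1 + q) * l * ((1 - t) * Γ) * w := by
      have : 0 ≤ (1 + q) * l := by positivity
      exact mul_le_mul_of_nonneg_right (mul_le_mul_of_nonneg_left hcon.le this) hw0.le
    have h9 := mul_nonneg hG (sq_nonneg w)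
    nlinarith
  · -- case II
    have hΓ0 : Γ ≤ 0 := by
      have h3 : Γ ≤ q * (t ^ 2 - 1 - M) := by
        have h4 : q * (q * (1 + t + t ^ 2)) ≤ q * (1 + t + t ^ 2) := by
          have : q * (1 + t + t ^ 2) ≤ 1 * (1 + t + t ^ 2) :=
            mul_le_mul_of_nonneg_right hq1.le (by positivity)
          exact mul_le_mul_of_nonneg_left (by linarith) hq0.le
        rw [hΓ]; nlinarith
      have h5 : q * (t ^ 2 - 1 - M) ≤ 0 :=
        mul_nonpos_of_nonneg_of_nonpos hq0.le (by linarith)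
      linarith
    have h6 : (1 - t) * Γ ≤ 0 := mul_nonpos_of_nonneg_of_nonpos (by linarith) hΓ0
    have h7 : 0 ≤ u * w := mul_nonneg hu hw0.le
    linarith

/-- the inequality for the moduli -/
lemma real_main (q t a H y ν : ℝ) (hν : 1 ≤ ν) (hq0 : 0 < q) (hq1 : q < 1) (ht0 : 0 < t)
    (ht1 : t < 1) (ha : -t ≤ a) (ha' : a ≤ t) (hrel : (ν + 1) * H - (ν - 1) * y = 1 + q)
    (h1 : H * y ≤ q) (h2 : y ≤ t * H)
    (hR : t ^ 2 * H ^ 2 + y ^ 2 - (1 + q) * ((ν + 1) * y - (ν - 1) * t ^ 2 * H)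
      + q * (1 + t ^ 2 + 2 * ν * (1 - t ^ 2)) + 2 * a * (H * y - q) = 0) :
    (q - y) ^ 2 + 2 * (q - y) * (1 - H) * a + (1 - H) ^ 2 * t ^ 2 ≤
      t ^ 2 * ((1 - y) ^ 2 + 2 * (1 - y) * (q - H) * a + (q - H) ^ 2 * t ^ 2) := by
  have hu : 0 ≤ t * H - y := by linarith
  have hG : 0 ≤ (t * H - y) ^ 2 + (1 + q) * (2 + (ν - 1) * (1 + t)) * (t * H - y)
      + (q * (1 + t) * (3 - t + 2 * (ν - 1) * (1 - t)) - t * (1 + q) ^ 2) := by
    have e : (t * H - y) ^ 2 + (1 + q) * (2 + (ν - 1) * (1 + t)) * (t * H - y)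
      + (q * (1 + t) * (3 - t + 2 * (ν - 1) * (1 - t)) - t * (1 + q) ^ 2) =
        2 * (t + a) * (q - H * y) := by
      have hq : q = (ν + 1) * H - (ν - 1) * y - 1 := by linarith
      rw [hq] at hR ⊢
      linear_combination hR
    rw [e]
    exact mul_nonneg (by linarith) (by linarith)
  have hc := core_ineq q t (ν - 1) (t * H - y) hq0 hq1 ht0 ht1 (by linarith) hu hG
  have hl : 0 < 2 + (ν - 1) * (1 - t) := by
    have : 0 ≤ (ν - 1) * (1 - t) := mul_nonneg (by linarith) (by linarith)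
    linarith
  have hW : 0 ≤ 2 * q * (1 - t ^ 2) - H * (q + t - t ^ 2 - q * t ^ 3)
      + (t * H - y) * (1 - q * t ^ 2) := by
    have e : (2 + (ν - 1) * (1 - t)) * (2 * q * (1 - t ^ 2) - H * (q + t - t ^ 2 - q * t ^ 3)
      + (t * H - y) * (1 - q * t ^ 2)) =
        (t * H - y) * (2 * (1 - q * t ^ 2) + (1 + q) * ((ν - 1) * (1 - t ^ 2))) -
        (1 - t) * (t - q * (3 - t) * (1 + t) + q ^ 2 * (1 + t + t ^ 2)
          - 2 * q * ((ν - 1) * (1 - t ^ 2))) := by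
      have hq : q = (ν + 1) * H - (ν - 1) * y - 1 := by linarith
      rw [hq]
      ring
    by_contra hcon
    push Not at hcon
    have := mul_neg_of_pos_of_neg hl hcon
    rw [e] at this
    linarith
  have he : 0 ≤ (ν - 1) * (1 - t ^ 2) := mul_nonneg (by linarith) (by nlinarith)
  have h3 : 0 ≤ (2 * q * (1 - t ^ 2) - H * (q + t - t ^ 2 - q * t ^ 3)
      + (t * H - y) * (1 - q * t ^ 2)) * (2 * (1 - a) + (ν - 1) * (1 - t ^ 2)) :=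
    mul_nonneg hW (by linarith)
  have e : t ^ 2 * ((1 - y) ^ 2 + 2 * (1 - y) * (q - H) * a + (q - H) ^ 2 * t ^ 2) -
      ((q - y) ^ 2 + 2 * (q - y) * (1 - H) * a + (1 - H) ^ 2 * t ^ 2) =
      (2 * q * (1 - t ^ 2) - H * (q + t - t ^ 2 - q * t ^ 3)
      + (t * H - y) * (1 - q * t ^ 2)) * (2 * (1 - a) + (ν - 1) * (1 - t ^ 2)) := by
    have hq : q = (ν + 1) * H - (ν - 1) * y - 1 := by linarith
    rw [hq] at hR ⊢
    linear_combination (-(1 - t ^ 2)) * hR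
  linarith

/-- Schur-Cohn -/
lemma schur_real (q t a H y ν : ℝ) (hν : 1 ≤ ν) (hrel : (ν + 1) * H - (ν - 1) * y = 1 + q)
    (hR : t ^ 2 * H ^ 2 + y ^ 2 - (1 + q) * ((ν + 1) * y - (ν - 1) * t ^ 2 * H)
      + q * (1 + t ^ 2 + 2 * ν * (1 - t ^ 2)) + 2 * a * (H * y - q) = 0)
    (hsc : (t ^ 2 * (H - y) ^ 2 + 2 * a * (H - y) * (y - H * t ^ 2) + (y - H * t ^ 2) ^ 2) <
      q * (1 - t ^ 2) ^ 2) : H * y ≤ q := by
  have e : ν ^ 2 * (q * (1 - t ^ 2) ^ 2 -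
      (t ^ 2 * (H - y) ^ 2 + 2 * a * (H - y) * (y - H * t ^ 2) + (y - H * t ^ 2) ^ 2)) =
      (q - H * y) * (ν * (1 - t ^ 2) + (1 + t ^ 2 - 2 * a)) ^ 2 := by
    have hq : q = (ν + 1) * H - (ν - 1) * y - 1 := by linarith
    rw [hq] at hR ⊢
    linear_combination (-(1 + t ^ 2 - 2 * a)) * hR
  by_contra hcon
  push Not at hcon
  have h1 : 0 < ν ^ 2 * (q * (1 - t ^ 2) ^ 2 -
      (t ^ 2 * (H - y) ^ 2 + 2 * a * (H - y) * (y - H * t ^ 2) + (y - H * t ^ 2) ^ 2)) :=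
    mul_pos (by positivity) (by linarith)
  rw [e] at h1
  have h2 : (q - H * y) * (ν * (1 - t ^ 2) + (1 + t ^ 2 - 2 * a)) ^ 2 ≤ 0 :=
    mul_nonpos_of_nonpos_of_nonneg (by linarith) (sq_nonneg _)
  linarith

/-- numerator of the critical point equation in the variable `w = z ^ n`, `ν = n` -/
noncomputable def Nn (ν : ℝ) (p s z : ℂ) : ℂ :=
  starRingEnd ℂ p * z ^ 4
    - (((ν : ℂ) + 1) * starRingEnd ℂ s - ((ν : ℂ) - 1) * (s * starRingEnd ℂ p)) * z ^ 3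
    + (1 + s * starRingEnd ℂ s + p * starRingEnd ℂ p + 2 * (ν : ℂ) * (1 - p * starRingEnd ℂ p))
      * z ^ 2
    - (((ν : ℂ) + 1) * s - ((ν : ℂ) - 1) * (p * starRingEnd ℂ s)) * z + p

lemma pow_re' (x : ℝ) (n : ℕ) : ((x : ℂ) ^ n).re = x ^ n := by
  rw [← Complex.ofReal_pow]; exact Complex.ofReal_re _

lemma pow_im' (x : ℝ) (n : ℕ) : ((x : ℂ) ^ n).im = 0 := by
  rw [← Complex.ofReal_pow]; exact Complex.ofReal_im _

lemma small_root (x t Z : ℝ) (hx0 : 0 < x) (ht0 : 0 < t)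
    (hcon : t * (1 + x ^ 2) < Z) :
    ∃ y : ℝ, 0 ≤ y ∧ y < x ∧ x * t * y ^ 2 - Z * y + x * t = 0 := by
  have hZ0 : 0 < Z := lt_trans (by positivity) hcon
  have hdisc : 0 ≤ Z ^ 2 - 4 * x ^ 2 * t ^ 2 := by
    have h3 : 2 * x * t ≤ t * (1 + x ^ 2) := by
      nlinarith [mul_nonneg ht0.le (sq_nonneg (1 - x))]
    have h4 : 2 * x * t ≤ Z := by linarith
    have h5 : 0 ≤ 2 * x * t := by positivity
    have h6 : (2 * x * t) ^ 2 ≤ Z ^ 2 := pow_le_pow_left₀ h5 h4 2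
    nlinarith
  obtain ⟨r, hr0, hr2⟩ : ∃ r : ℝ, 0 ≤ r ∧ r ^ 2 = Z ^ 2 - 4 * x ^ 2 * t ^ 2 :=
    ⟨Real.sqrt (Z ^ 2 - 4 * x ^ 2 * t ^ 2), Real.sqrt_nonneg _, Real.sq_sqrt hdisc⟩
  have hrZ : r ≤ Z := by
    have h0 : 0 ≤ 4 * x ^ 2 * t ^ 2 := by positivity
    have h1 : r ^ 2 ≤ Z ^ 2 := by linarith
    exact (sq_le_sq₀ hr0 hZ0.le).1 h1
  have hlt : Z - 2 * x ^ 2 * t < r := by
    by_contra hc
    push Not at hc
    have h3 : r ^ 2 ≤ (Z - 2 * x ^ 2 * t) ^ 2 := pow_le_pow_left₀ hr0 hc 2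
    have h4 : 0 < x ^ 2 * t * (Z - t * (1 + x ^ 2)) :=
      mul_pos (mul_pos (by positivity) ht0) (by linarith)
    nlinarith
  refine ⟨(Z - r) / (2 * x * t), div_nonneg (by linarith) (by positivity), ?_, ?_⟩
  · rw [div_lt_iff₀ (by positivity)]
    nlinarith
  · field_simp
    linear_combination hr2

lemma factor (P P' S S' T W x z : ℂ) (hs : x * S = W + (1 + x ^ 2) * P)
    (hs' : x * S' = W + (1 + x ^ 2) * P')
    (hT : x ^ 2 * T = x ^ 2 * (P + P') + (1 + x ^ 2) * W) :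
    x ^ 2 * (P' * z ^ 4 - S' * z ^ 3 + T * z ^ 2 - S * z + P) =
      (x * z ^ 2 - (1 + x ^ 2) * z + x) * (x * P' * z ^ 2 - W * z + x * P) := by
  linear_combination (-x * z ^ 3) * hs' + (-x * z) * hs + z ^ 2 * hT

lemma complex_main (ν : ℝ) (hν : 1 ≤ ν) (p s : ℂ) (x : ℝ) (hx0 : 0 < x) (hx1 : x < 1)
    (hp0 : 0 < ‖p‖) (hp1 : ‖p‖ < 1)
    (hN : Nn ν p s (x : ℂ) = 0) (hmin : ∀ z, Nn ν p s z = 0 → x ≤ ‖z‖)
    (hSC : ‖s - p * starRingEnd ℂ s‖ < 1 - ‖p‖ ^ 2) :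
    ‖(x : ℂ) ^ 2 - s * x + p‖ ≤ ‖p‖ * ‖1 - starRingEnd ℂ s * x + starRingEnd ℂ p * (x : ℂ) ^ 2‖ := by
  obtain ⟨t, ht⟩ : ∃ t : ℝ, t = ‖p‖ := ⟨_, rfl⟩
  obtain ⟨a, ha⟩ : ∃ a : ℝ, a = p.re := ⟨_, rfl⟩
  obtain ⟨b, hb⟩ : ∃ b : ℝ, b = p.im := ⟨_, rfl⟩
  obtain ⟨c, hc⟩ : ∃ c : ℝ, c = s.re := ⟨_, rfl⟩
  obtain ⟨d, hd0⟩ : ∃ d : ℝ, d = s.im := ⟨_, rfl⟩
  have ht2 : t ^ 2 = a ^ 2 + b ^ 2 := by
    rw [ht, ha, hb, ← Complex.normSq_eq_norm_sq, Complex.normSq_apply]; ring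
  have hre : a * x ^ 4 - ((ν + 1) * c - (ν - 1) * (c * a + d * b)) * x ^ 3
      + (1 + c ^ 2 + d ^ 2 + a ^ 2 + b ^ 2 + 2 * ν * (1 - a ^ 2 - b ^ 2)) * x ^ 2
      - ((ν + 1) * c - (ν - 1) * (a * c + b * d)) * x + a = 0 := by
    have h := congrArg Complex.re hN
    unfold Nn at h
    simp [pow_re', pow_im'] at h
    rw [← ha, ← hb, ← hc, ← hd0] at h
    linarith
  have him : -b * x ^ 4 + ((ν + 1) * d + (ν - 1) * (d * a - c * b)) * x ^ 3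
      - ((ν + 1) * d - (ν - 1) * (b * c - a * d)) * x + b = 0 := by
    have h := congrArg Complex.im hN
    unfold Nn at h
    simp [pow_re', pow_im'] at h
    rw [← ha, ← hb, ← hc, ← hd0] at h
    linarith
  have ha1 : -t ≤ a ∧ a ≤ t := by
    rw [ha, ht]; exact abs_le.1 (Complex.abs_re_le_norm p)
  rw [← ht] at hp0 hp1 hSC ⊢
  obtain ⟨q, hq⟩ : ∃ q : ℝ, q = x ^ 2 := ⟨_, rfl⟩
  have hq0 : 0 < q := by rw [hq]; positivity
  have hq1 : q < 1 := by rw [hq]; nlinarith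
  have hden : 0 < (ν + 1) + (ν - 1) * a := by nlinarith [ha1.1]
  obtain ⟨H, hH⟩ : ∃ H : ℝ, H * ((ν + 1) + (ν - 1) * a) = 1 + q + (ν - 1) * (x * c) :=
    ⟨(1 + q + (ν - 1) * (x * c)) / ((ν + 1) + (ν - 1) * a), by field_simp⟩
  obtain ⟨y, hxc⟩ : ∃ y : ℝ, x * c = H * a + y := ⟨x * c - H * a, by ring⟩
  have hrel : (ν + 1) * H - (ν - 1) * y = 1 + q := by
    rw [hxc] at hH; linarith
  have hxd : x * d = H * b := by
    have h : (1 - x ^ 2) * (b * (1 + x ^ 2) - x * ((ν + 1) * d + (ν - 1) * (a * d - b * c)))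
        = 0 := by linear_combination him
    have h2 : b * (1 + x ^ 2) - x * ((ν + 1) * d + (ν - 1) * (a * d - b * c)) = 0 := by
      rcases mul_eq_zero.1 h with h | h
      · rw [hq] at hq1; linarith
      · exact h
    have h3 : ((ν + 1) + (ν - 1) * a) * (x * d - H * b) = 0 := by
      rw [hq] at hH
      linear_combination -h2 - b * hH
    rcases mul_eq_zero.1 h3 with h | h
    · exact absurd h hden.ne'
    · linarith
  have hre2 : a * q ^ 2 + a - (1 + q) * ((ν + 1) * (x * c) - (ν - 1) * (a * (x * c) + b * (x * d)))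
      + q * (1 + (a ^ 2 + b ^ 2) + 2 * ν * (1 - (a ^ 2 + b ^ 2))) + (x * c) ^ 2 + (x * d) ^ 2
      = 0 := by
    rw [hq]; linear_combination hre
  have hR : t ^ 2 * H ^ 2 + y ^ 2 - (1 + q) * ((ν + 1) * y - (ν - 1) * t ^ 2 * H)
      + q * (1 + t ^ 2 + 2 * ν * (1 - t ^ 2)) + 2 * a * (H * y - q) = 0 := by
    rw [hxc, hxd] at hre2
    rw [ht2]
    linear_combination hre2 + (1 + q) * a * hrel
  -- Schur-Cohn
  have h1 : H * y ≤ q := by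
    refine schur_real q t a H y ν hν hrel hR ?_
    have e : ‖s - p * starRingEnd ℂ s‖ ^ 2 =
        (c - a * c - b * d) ^ 2 + (d - b * c + a * d) ^ 2 := by
      rw [← Complex.normSq_eq_norm_sq, Complex.normSq_apply, ha, hb, hc, hd0]
      simp
      ring
    have h3 : (c - a * c - b * d) ^ 2 + (d - b * c + a * d) ^ 2 < (1 - t ^ 2) ^ 2 := by
      rw [← e]
      exact pow_lt_pow_left₀ hSC (norm_nonneg _) two_ne_zero
    have e2 : t ^ 2 * (H - y) ^ 2 + 2 * a * (H - y) * (y - H * t ^ 2) + (y - H * t ^ 2) ^ 2 =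
        q * ((c - a * c - b * d) ^ 2 + (d - b * c + a * d) ^ 2) := by
      have e3 : q * ((c - a * c - b * d) ^ 2 + (d - b * c + a * d) ^ 2) =
          ((x * c) - a * (x * c) - b * (x * d)) ^ 2
            + ((x * d) - b * (x * c) + a * (x * d)) ^ 2 := by
        rw [hq]; ring
      rw [e3, hxc, hxd, ht2]; ring
    rw [e2]
    exact mul_lt_mul_of_pos_left h3 hq0
  -- minimality
  have h2 : (ν + 1) * y - (ν - 1) * t ^ 2 * H ≤ t * (1 + q) := by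
    by_contra hcon
    push Not at hcon
    obtain ⟨Z, hZ⟩ : ∃ Z : ℝ, Z = (ν + 1) * y - (ν - 1) * t ^ 2 * H := ⟨_, rfl⟩
    rw [← hZ, hq] at hcon
    obtain ⟨r, hr0, hrx, hreq⟩ := small_root x t Z hx0 hp0 hcon
    obtain ⟨z, hz⟩ : ∃ z : ℂ, z = (r : ℂ) * p / (t : ℂ) := ⟨_, rfl⟩
    have hznorm : ‖z‖ = r := by
      rw [hz, norm_div, norm_mul, Complex.norm_real, Complex.norm_real, ← ht,
        Real.norm_eq_abs, Real.norm_eq_abs, abs_of_nonneg hr0, abs_of_pos hp0]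
      field_simp
    have htc : (t : ℂ) ≠ 0 := by exact_mod_cast hp0.ne'
    have hxc0 : (x : ℂ) ≠ 0 := by exact_mod_cast hx0.ne'
    have hpp : p * starRingEnd ℂ p = (t : ℂ) ^ 2 := by
      rw [Complex.mul_conj, Complex.normSq_eq_norm_sq, ← ht]; push_cast; rfl
    have hquad : (x : ℂ) * starRingEnd ℂ p * z ^ 2 - (Z : ℂ) * z + (x : ℂ) * p = 0 := by
      have hyc : (x : ℂ) * t * (r : ℂ) ^ 2 - Z * r + x * t = 0 := by exact_mod_cast hreq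
      have e : (x : ℂ) * starRingEnd ℂ p * z ^ 2 - (Z : ℂ) * z + (x : ℂ) * p =
        p / t * ((x : ℂ) * (p * starRingEnd ℂ p) / t * (r : ℂ) ^ 2 - Z * r + x * t) := by
        rw [hz]; field_simp
      rw [e, hpp]
      have e2 : (x : ℂ) * (t : ℂ) ^ 2 / t * (r : ℂ) ^ 2 - Z * r + x * t =
          (x : ℂ) * t * (r : ℂ) ^ 2 - Z * r + x * t := by field_simp
      rw [e2, hyc, mul_zero]
    have hs : (x : ℂ) * (((ν : ℂ) + 1) * s - ((ν : ℂ) - 1) * (p * starRingEnd ℂ s)) =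
        (Z : ℂ) + (1 + (x : ℂ) ^ 2) * p := by
      apply Complex.ext
      · simp [pow_re', pow_im']
        rw [← ha, ← hb, ← hc, ← hd0, ← hq, hZ, ht2]
        linear_combination (ν + 1 - (ν - 1) * a) * hxc - (ν - 1) * b * hxd + a * hrel
      · simp [pow_re', pow_im']
        rw [← ha, ← hb, ← hc, ← hd0, ← hq]
        linear_combination (-(ν - 1) * b) * hxc + (ν + 1 + (ν - 1) * a) * hxd + b * hrel
    have hs' : (x : ℂ) * (((ν : ℂ) + 1) * starRingEnd ℂ s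
        - ((ν : ℂ) - 1) * (s * starRingEnd ℂ p)) =
        (Z : ℂ) + (1 + (x : ℂ) ^ 2) * starRingEnd ℂ p := by
      have := congrArg (starRingEnd ℂ) hs
      simp only [map_mul, map_add, map_sub, map_one, map_pow, Complex.conj_ofReal,
        Complex.conj_conj] at this
      rw [mul_comm (starRingEnd ℂ p) s] at this
      exact this
    have hTr : x ^ 2 * (1 + (c ^ 2 + d ^ 2) + (a ^ 2 + b ^ 2) + 2 * ν * (1 - (a ^ 2 + b ^ 2))) =
        x ^ 2 * (2 * a) + (1 + x ^ 2) * Z := by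
      rw [hZ, ht2]
      rw [hq] at hre2 hrel
      have e5 : (ν + 1) * (x * c) - (ν - 1) * (a * (x * c) + b * (x * d)) =
          (ν + 1) * y - (ν - 1) * (a ^ 2 + b ^ 2) * H + (1 + x ^ 2) * a := by
        linear_combination (ν + 1 - (ν - 1) * a) * hxc - (ν - 1) * b * hxd + a * hrel
      rw [e5] at hre2
      linear_combination hre2
    have hsum : p + starRingEnd ℂ p = 2 * (a : ℂ) := by
      rw [Complex.add_conj, ha]; push_cast; rfl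
    have hss : s * starRingEnd ℂ s = ((c ^ 2 + d ^ 2 : ℝ) : ℂ) := by
      rw [Complex.mul_conj, Complex.normSq_apply, hc, hd0]; push_cast; ring
    have hpp2 : p * starRingEnd ℂ p = ((a ^ 2 + b ^ 2 : ℝ) : ℂ) := by
      rw [Complex.mul_conj, Complex.normSq_apply, ha, hb]; push_cast; ring
    have hT : (x : ℂ) ^ 2 * (1 + s * starRingEnd ℂ s + p * starRingEnd ℂ p
        + 2 * (ν : ℂ) * (1 - p * starRingEnd ℂ p)) =
        (x : ℂ) ^ 2 * (p + starRingEnd ℂ p) + (1 + (x : ℂ) ^ 2) * Z := by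
      rw [hsum, hss, hpp2]
      exact_mod_cast hTr
    have key := factor p (starRingEnd ℂ p) _ _ _ (Z : ℂ) (x : ℂ) z hs hs' hT
    rw [hquad, mul_zero] at key
    have h4 : ((x : ℂ) ^ 2) ≠ 0 := pow_ne_zero _ hxc0
    have hNz : Nn ν p s z = 0 := (mul_eq_zero.1 key).resolve_left h4
    have := hmin z hNz
    rw [hznorm] at this
    linarith
  have h2' : y ≤ t * H := by
    have h3 : 0 < (ν + 1) + (ν - 1) * t := by nlinarith
    have h4 : ((ν + 1) + (ν - 1) * t) * (y - t * H) ≤ 0 := by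
      have e : ((ν + 1) + (ν - 1) * t) * (y - t * H) =
          ((ν + 1) * y - (ν - 1) * t ^ 2 * H) - t * ((ν + 1) * H - (ν - 1) * y) := by ring
      rw [e, hrel]; linarith
    by_contra hcon
    push Not at hcon
    have := mul_pos h3 (sub_pos.2 hcon)
    linarith
  have hfin := real_main q t a H y ν hν hq0 hq1 hp0 hp1 ha1.1 ha1.2 hrel h1 h2' hR
  have eP : ‖(x : ℂ) ^ 2 - s * x + p‖ ^ 2 =
      (q - y) ^ 2 + 2 * (q - y) * (1 - H) * a + (1 - H) ^ 2 * t ^ 2 := by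
    rw [← Complex.normSq_eq_norm_sq, Complex.normSq_apply, ht2]
    have er : ((x : ℂ) ^ 2 - s * x + p).re = q - x * c + a := by
      simp [pow_re']
      rw [← ha, ← hc, ← hq]; ring
    have ei : ((x : ℂ) ^ 2 - s * x + p).im = - (x * d) + b := by
      simp [pow_im']
      rw [← hb, ← hd0]; ring
    rw [er, ei, hxc, hxd]
    ring
  have eQ : ‖1 - starRingEnd ℂ s * x + starRingEnd ℂ p * (x : ℂ) ^ 2‖ ^ 2 =
      (1 - y) ^ 2 + 2 * (1 - y) * (q - H) * a + (q - H) ^ 2 * t ^ 2 := by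
    rw [← Complex.normSq_eq_norm_sq, Complex.normSq_apply, ht2]
    have er : (1 - starRingEnd ℂ s * x + starRingEnd ℂ p * (x : ℂ) ^ 2).re
        = 1 - x * c + a * q := by
      simp [pow_re', pow_im']
      rw [← ha, ← hc, ← hq]; ring
    have ei : (1 - starRingEnd ℂ s * x + starRingEnd ℂ p * (x : ℂ) ^ 2).im
        = x * d - b * q := by
      simp [pow_re', pow_im']
      rw [← hb, ← hd0, ← hq]; ring
    rw [er, ei, hxc, hxd]
    ring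
  rw [← eP, ← eQ, ← mul_pow] at hfin
  exact (sq_le_sq₀ (norm_nonneg _) (by positivity)).1 hfin

lemma circle (ν : ℝ) (hν : 1 ≤ ν) (τ₀ τ₁ z : ℂ) (h0 : ‖τ₀‖ < 1) (h1 : ‖τ₁‖ < 1) (hz : ‖z‖ = 1) :
    Nn ν (τ₀ * τ₁) (τ₀ + τ₁) z ≠ 0 := by
  have hz0 : z ≠ 0 := by
    rintro rfl
    simp at hz
  have hw : starRingEnd ℂ z = z⁻¹ := by
    rw [Complex.inv_def, Complex.normSq_eq_norm_sq, hz]; simp
  have e : Nn ν (τ₀ * τ₁) (τ₀ + τ₁) z = z ^ 2 *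
      (((z - τ₀) * starRingEnd ℂ (z - τ₀)) * ((z - τ₁) * starRingEnd ℂ (z - τ₁))
        + (ν : ℂ) * ((1 - τ₀ * starRingEnd ℂ τ₀) * ((z - τ₁) * starRingEnd ℂ (z - τ₁))
        + (1 - τ₁ * starRingEnd ℂ τ₁) * ((z - τ₀) * starRingEnd ℂ (z - τ₀)))) := by
    unfold Nn
    simp only [map_mul, map_add, map_sub, hw]
    field_simp
    ring
  rw [e]
  refine mul_ne_zero (pow_ne_zero _ hz0) ?_
  have hz1 : z - τ₁ ≠ 0 := by
    intro h
    rw [sub_eq_zero] at h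
    rw [h] at hz
    linarith
  have hpos : 0 < ‖z - τ₀‖ ^ 2 * ‖z - τ₁‖ ^ 2 + ν * ((1 - ‖τ₀‖ ^ 2) * ‖z - τ₁‖ ^ 2
      + (1 - ‖τ₁‖ ^ 2) * ‖z - τ₀‖ ^ 2) := by
    have a1 : 0 < ‖z - τ₁‖ ^ 2 := by
      have := norm_pos_iff.2 hz1
      positivity
    have a2 : 0 < 1 - ‖τ₀‖ ^ 2 := by nlinarith [norm_nonneg τ₀]
    have a3 : 0 < 1 - ‖τ₁‖ ^ 2 := by nlinarith [norm_nonneg τ₁]
    have b1 := mul_pos a2 a1
    have b2 : 0 ≤ (1 - ‖τ₁‖ ^ 2) * ‖z - τ₀‖ ^ 2 := by positivity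
    have b3 : 0 ≤ ‖z - τ₀‖ ^ 2 * ‖z - τ₁‖ ^ 2 := by positivity
    have b4 : 0 < ν * ((1 - ‖τ₀‖ ^ 2) * ‖z - τ₁‖ ^ 2
      + (1 - ‖τ₁‖ ^ 2) * ‖z - τ₀‖ ^ 2) := mul_pos (by linarith) (by linarith)
    linarith
  simp only [Complex.mul_conj, Complex.normSq_eq_norm_sq]
  intro h
  have h' : (((‖z - τ₀‖ ^ 2 * ‖z - τ₁‖ ^ 2 + ν * ((1 - ‖τ₀‖ ^ 2) * ‖z - τ₁‖ ^ 2
      + (1 - ‖τ₁‖ ^ 2) * ‖z - τ₀‖ ^ 2) : ℝ)) : ℂ) = 0 := by
    push_cast
    push_cast at h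
    exact h
  have h'' := Complex.ofReal_eq_zero.1 h'
  linarith

lemma sym_root (ν : ℝ) (p s z : ℂ) (hz : z ≠ 0) (h : Nn ν p s z = 0) :
    Nn ν p s (starRingEnd ℂ z)⁻¹ = 0 := by
  have hw : starRingEnd ℂ z ≠ 0 := (_root_.map_ne_zero _).2 hz
  have h1 := congrArg (starRingEnd ℂ) h
  unfold Nn at h1 ⊢
  have h2c : starRingEnd ℂ (2 : ℂ) = 2 := map_ofNat (starRingEnd ℂ) 2
  simp only [map_add, map_sub, map_mul, map_pow, map_zero, map_one, Complex.conj_conj, h2c,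
    Complex.conj_ofReal] at h1
  generalize starRingEnd ℂ z = w at *
  generalize starRingEnd ℂ p = p' at *
  generalize starRingEnd ℂ s = s' at *
  field_simp
  linear_combination h1

lemma exists_min_root (ν : ℝ) (p s : ℂ) (hp : p ≠ 0) :
    ∃ ζ, Nn ν p s ζ = 0 ∧ ∀ z, Nn ν p s z = 0 → ‖ζ‖ ≤ ‖z‖ := by
  classical
  set NP : ℂ[X] := C (starRingEnd ℂ p) * X ^ 4
    - C (((ν : ℂ) + 1) * starRingEnd ℂ s - ((ν : ℂ) - 1) * (s * starRingEnd ℂ p)) * X ^ 3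
    + C (1 + s * starRingEnd ℂ s + p * starRingEnd ℂ p + 2 * (ν : ℂ) * (1 - p * starRingEnd ℂ p))
      * X ^ 2
    - C (((ν : ℂ) + 1) * s - ((ν : ℂ) - 1) * (p * starRingEnd ℂ s)) * X + C p with hNP
  have hev : ∀ z, NP.eval z = Nn ν p s z := by
    intro z
    simp only [hNP, Nn, eval_add, eval_sub, eval_mul, eval_C, eval_pow, eval_X]
  have hp' : starRingEnd ℂ p ≠ 0 := (_root_.map_ne_zero _).2 hp
  have hdeg : NP.natDegree = 4 := by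
    rw [hNP]
    compute_degree!
  have hne : NP ≠ 0 := by
    intro h
    rw [h] at hdeg
    simp at hdeg
  obtain ⟨r, hr⟩ := IsAlgClosed.exists_root NP (by
    rw [Polynomial.degree_eq_natDegree hne, hdeg]; norm_num)
  obtain ⟨ζ, h1, h2⟩ := Finset.exists_min_image NP.roots.toFinset (fun z => ‖z‖)
    ⟨r, by rw [Multiset.mem_toFinset, Polynomial.mem_roots hne]; exact hr⟩
  refine ⟨ζ, ?_, fun z hz => h2 z ?_⟩
  · rw [Multiset.mem_toFinset, Polynomial.mem_roots hne] at h1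
    rw [← hev]; exact h1
  · rw [Multiset.mem_toFinset, Polynomial.mem_roots hne, Polynomial.IsRoot, hev]
    exact hz

lemma schur_cohn (τ₀ τ₁ : ℂ) (h0 : ‖τ₀‖ < 1) (h1 : ‖τ₁‖ < 1) :
    ‖(τ₀ + τ₁) - (τ₀ * τ₁) * starRingEnd ℂ (τ₀ + τ₁)‖ < 1 - ‖τ₀ * τ₁‖ ^ 2 := by
  have e : (τ₀ + τ₁) - (τ₀ * τ₁) * starRingEnd ℂ (τ₀ + τ₁) =
      τ₀ * ((1 - ‖τ₁‖ ^ 2 : ℝ) : ℂ) + τ₁ * ((1 - ‖τ₀‖ ^ 2 : ℝ) : ℂ) := by
    have e0 : τ₀ * starRingEnd ℂ τ₀ = ((‖τ₀‖ ^ 2 : ℝ) : ℂ) := by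
      rw [Complex.mul_conj, Complex.normSq_eq_norm_sq]
    have e1 : τ₁ * starRingEnd ℂ τ₁ = ((‖τ₁‖ ^ 2 : ℝ) : ℂ) := by
      rw [Complex.mul_conj, Complex.normSq_eq_norm_sq]
    rw [map_add, Complex.ofReal_sub, Complex.ofReal_sub, ← e0, ← e1]
    push_cast
    ring
  rw [e]
  have A0 := norm_nonneg τ₀
  have B0 := norm_nonneg τ₁
  have hA : 0 ≤ 1 - ‖τ₀‖ ^ 2 := by nlinarith
  have hB : 0 ≤ 1 - ‖τ₁‖ ^ 2 := by nlinarith
  calc ‖τ₀ * ((1 - ‖τ₁‖ ^ 2 : ℝ) : ℂ) + τ₁ * ((1 - ‖τ₀‖ ^ 2 : ℝ) : ℂ)‖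
      ≤ ‖τ₀‖ * (1 - ‖τ₁‖ ^ 2) + ‖τ₁‖ * (1 - ‖τ₀‖ ^ 2) := by
        refine (norm_add_le _ _).trans ?_
        rw [norm_mul, norm_mul, Complex.norm_real, Complex.norm_real, Real.norm_eq_abs,
          Real.norm_eq_abs, abs_of_nonneg hA, abs_of_nonneg hB]
    _ < 1 - ‖τ₀ * τ₁‖ ^ 2 := by
        rw [norm_mul]
        have hAB : ‖τ₀‖ * ‖τ₁‖ < 1 := by nlinarith
        have h3 : 0 < (1 - ‖τ₀‖ * ‖τ₁‖) * ((1 - ‖τ₀‖) * (1 - ‖τ₁‖)) :=
          mul_pos (by linarith) (mul_pos (by linarith) (by linarith))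
        nlinarith

lemma rot (ν : ℝ) (p s u z : ℂ) (hu : u ≠ 0) (hu1 : starRingEnd ℂ u = u⁻¹) :
    Nn ν (p * starRingEnd ℂ u ^ 2) (s * starRingEnd ℂ u) z =
      starRingEnd ℂ u ^ 2 * Nn ν p s (u * z) := by
  unfold Nn
  simp only [map_mul, map_pow, hu1, map_inv₀]
  field_simp

lemma main_ineq (ν : ℝ) (hν : 1 ≤ ν) (τ₀ τ₁ : ℂ) (h0 : ‖τ₀‖ < 1) (h1 : ‖τ₁‖ < 1) (n0 : τ₀ ≠ 0)
    (n1 : τ₁ ≠ 0) :
    ∃ ζ, ζ ≠ 0 ∧ ‖ζ‖ < 1 ∧ Nn ν (τ₀ * τ₁) (τ₀ + τ₁) ζ = 0 ∧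
      (∀ z, Nn ν (τ₀ * τ₁) (τ₀ + τ₁) z = 0 → ‖ζ‖ ≤ ‖z‖) ∧
      ‖ζ ^ 2 - (τ₀ + τ₁) * ζ + τ₀ * τ₁‖ ≤ ‖τ₀ * τ₁‖ *
        ‖1 - starRingEnd ℂ (τ₀ + τ₁) * ζ + starRingEnd ℂ (τ₀ * τ₁) * ζ ^ 2‖ := by
  have hp : τ₀ * τ₁ ≠ 0 := mul_ne_zero n0 n1
  have hSC := schur_cohn τ₀ τ₁ h0 h1
  have hcirc := fun z => circle ν hν τ₀ τ₁ z h0 h1
  have hp1 : ‖τ₀ * τ₁‖ < 1 := by
    rw [norm_mul]
    have := norm_nonneg τ₀
    have := norm_nonneg τ₁
    nlinarith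
  generalize τ₀ * τ₁ = p at *
  generalize τ₀ + τ₁ = s at *
  obtain ⟨ζ, hζ, hmin⟩ := exists_min_root ν p s hp
  have hζ0 : ζ ≠ 0 := by
    rintro rfl
    unfold Nn at hζ
    simp at hζ
    exact hp hζ
  have hζ1 : ‖ζ‖ < 1 := by
    by_contra hge
    push Not at hge
    have h3 := hmin _ (sym_root ν p s ζ hζ0 hζ)
    rw [norm_inv, RCLike.norm_conj] at h3
    have h4 : 0 < ‖ζ‖ := norm_pos_iff.2 hζ0
    have h5 : ‖ζ‖ ≤ 1 := by
      by_contra hc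
      push Not at hc
      have : ‖ζ‖⁻¹ < 1 := inv_lt_one_of_one_lt₀ hc
      linarith
    exact hcirc ζ (le_antisymm h5 hge) hζ
  refine ⟨ζ, hζ0, hζ1, hζ, hmin, ?_⟩
  obtain ⟨x, hx⟩ : ∃ x : ℝ, x = ‖ζ‖ := ⟨_, rfl⟩
  have hx0 : 0 < x := by rw [hx]; exact norm_pos_iff.2 hζ0
  have hxc : (x : ℂ) ≠ 0 := by exact_mod_cast hx0.ne'
  obtain ⟨u, hu⟩ : ∃ u : ℂ, u = ζ / x := ⟨_, rfl⟩
  have hux : u * x = ζ := by rw [hu]; field_simp
  have hu0 : u ≠ 0 := by rw [hu]; exact div_ne_zero hζ0 hxc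
  have hun : ‖u‖ = 1 := by
    rw [hu, norm_div, Complex.norm_real, Real.norm_eq_abs, abs_of_pos hx0, ← hx]
    field_simp
  have hu1 : starRingEnd ℂ u = u⁻¹ := by
    rw [Complex.inv_def, Complex.normSq_eq_norm_sq, hun]; simp
  have hcn : ‖starRingEnd ℂ u‖ = 1 := by rw [RCLike.norm_conj, hun]
  have hcu0 : starRingEnd ℂ u ≠ 0 := (_root_.map_ne_zero _).2 hu0
  have hpn : ‖p * starRingEnd ℂ u ^ 2‖ = ‖p‖ := by
    rw [norm_mul, norm_pow, hcn]; simp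
  have hkey := complex_main ν hν (p * starRingEnd ℂ u ^ 2) (s * starRingEnd ℂ u) x hx0
    (by rw [hx]; exact hζ1) (by rw [hpn]; exact norm_pos_iff.2 hp) (by rw [hpn]; exact hp1)
    (by rw [rot ν p s u x hu0 hu1, hux, hζ, mul_zero])
    (by
      intro z hz
      rw [rot ν p s u z hu0 hu1] at hz
      have h3 := (mul_eq_zero.1 hz).resolve_left (pow_ne_zero _ hcu0)
      have h4 := hmin _ h3
      rw [norm_mul, hun, one_mul] at h4
      rw [hx]; exact h4)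
    (by
      have e : s * starRingEnd ℂ u - p * starRingEnd ℂ u ^ 2 *
          starRingEnd ℂ (s * starRingEnd ℂ u) = starRingEnd ℂ u * (s - p * starRingEnd ℂ s) := by
        rw [map_mul, Complex.conj_conj, hu1]
        field_simp
      rw [e, norm_mul, hcn, one_mul, hpn]
      exact hSC)
  rw [hpn] at hkey
  have e1 : ζ ^ 2 - s * ζ + p =
      u ^ 2 * ((x : ℂ) ^ 2 - s * starRingEnd ℂ u * x + p * starRingEnd ℂ u ^ 2) := by
    rw [hu1, ← hux]; field_simp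
  have e2 : 1 - starRingEnd ℂ s * ζ + starRingEnd ℂ p * ζ ^ 2 =
      1 - starRingEnd ℂ (s * starRingEnd ℂ u) * x
        + starRingEnd ℂ (p * starRingEnd ℂ u ^ 2) * (x : ℂ) ^ 2 := by
    rw [map_mul, map_mul, map_pow, Complex.conj_conj, ← hux]; ring
  rw [e1, e2, norm_mul, norm_pow, hun, one_pow, one_mul]
  exact hkey

lemma den_ne (τ z : ℂ) (h0 : ‖τ‖ < 1) (hz : ‖z‖ < 1) : 1 - starRingEnd ℂ τ * z ≠ 0 := by
  intro h
  have h1 : starRingEnd ℂ τ * z = 1 := by linear_combination -h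
  have h2 := congrArg norm h1
  rw [norm_mul, RCLike.norm_conj, norm_one] at h2
  have := norm_nonneg τ
  have := norm_nonneg z
  nlinarith

/-- the Blaschke product of degree two in the variable `w` -/
noncomputable def F (α : Fin 2 → ℂ) (w : ℂ) : ℂ :=
  (w - α 0) / (1 - starRingEnd ℂ (α 0) * w) * ((w - α 1) / (1 - starRingEnd ℂ (α 1) * w))

lemma hasDeriv (n : ℕ) (hn : 1 ≤ n) (α : Fin 2 → ℂ) (hα : ∀ j, ‖α j‖ < 1) (z : ℂ) (hz : ‖z‖ < 1) :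
    HasDerivAt (fun z : ℂ => z * F α (z ^ n))
      (Nn n (α 0 * α 1) (α 0 + α 1) (z ^ n) /
        ((1 - starRingEnd ℂ (α 0) * z ^ n) * (1 - starRingEnd ℂ (α 1) * z ^ n)) ^ 2) z := by
  have hzn : ‖z ^ n‖ < 1 := by
    rw [norm_pow]
    exact pow_lt_one₀ (norm_nonneg z) hz (Nat.pos_iff_ne_zero.1 hn)
  have d0 := den_ne (α 0) (z ^ n) (hα 0) hzn
  have d1 := den_ne (α 1) (z ^ n) (hα 1) hzn
  have hf : ∀ τ w : ℂ, 1 - starRingEnd ℂ τ * w ≠ 0 →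
      HasDerivAt (fun z : ℂ => (z - τ) / (1 - starRingEnd ℂ τ * z))
        ((1 * (1 - starRingEnd ℂ τ * w) - (w - τ) * (-(starRingEnd ℂ τ * 1))) /
          (1 - starRingEnd ℂ τ * w) ^ 2) w := by
    intro τ w hτ
    exact ((hasDerivAt_id w).sub_const τ).div
      (((hasDerivAt_id w).const_mul (starRingEnd ℂ τ)).const_sub 1) hτ
  have hF : HasDerivAt (F α)
      (((1 * (1 - starRingEnd ℂ (α 0) * z ^ n) - (z ^ n - α 0) * (-(starRingEnd ℂ (α 0) * 1))) /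
          (1 - starRingEnd ℂ (α 0) * z ^ n) ^ 2) *
          ((z ^ n - α 1) / (1 - starRingEnd ℂ (α 1) * z ^ n))
        + (z ^ n - α 0) / (1 - starRingEnd ℂ (α 0) * z ^ n) *
        ((1 * (1 - starRingEnd ℂ (α 1) * z ^ n) - (z ^ n - α 1) * (-(starRingEnd ℂ (α 1) * 1))) /
          (1 - starRingEnd ℂ (α 1) * z ^ n) ^ 2)) (z ^ n) :=
    (hf (α 0) _ d0).mul (hf (α 1) _ d1)
  obtain ⟨D, hD⟩ : ∃ D : ℂ, D = (((1 * (1 - starRingEnd ℂ (α 0) * z ^ n)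
      - (z ^ n - α 0) * (-(starRingEnd ℂ (α 0) * 1))) /
          (1 - starRingEnd ℂ (α 0) * z ^ n) ^ 2) *
          ((z ^ n - α 1) / (1 - starRingEnd ℂ (α 1) * z ^ n))
        + (z ^ n - α 0) / (1 - starRingEnd ℂ (α 0) * z ^ n) *
        ((1 * (1 - starRingEnd ℂ (α 1) * z ^ n) - (z ^ n - α 1) * (-(starRingEnd ℂ (α 1) * 1))) /
          (1 - starRingEnd ℂ (α 1) * z ^ n) ^ 2)) := ⟨_, rfl⟩
  rw [← hD] at hF
  have hc : HasDerivAt (fun z : ℂ => F α (z ^ n)) (D * (n * z ^ (n - 1))) z :=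
    HasDerivAt.comp (h₂ := F α) (h := fun z : ℂ => z ^ n) z hF (hasDerivAt_pow n z)
  have h := (hasDerivAt_id z).mul hc
  refine h.congr_deriv ?_
  have e1 : 1 * F α (z ^ n) + z * (D * (n * z ^ (n - 1))) = F α (z ^ n) + n * z ^ n * D := by
    have e : z ^ n = z ^ (n - 1) * z := by rw [← pow_succ, Nat.sub_add_cancel hn]
    have e2 : z * (D * (n * z ^ (n - 1))) = n * z ^ n * D := by
      rw [e]
      ring
    rw [one_mul, e2]
  have e3 : 1 * F α (z ^ n) + z * (D * (n * z ^ (n - 1))) =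
      Nn n (α 0 * α 1) (α 0 + α 1) (z ^ n) /
        ((1 - starRingEnd ℂ (α 0) * z ^ n) * (1 - starRingEnd ℂ (α 1) * z ^ n)) ^ 2 := by
    rw [e1, hD]
    unfold Nn F
    simp only [map_mul, map_add, Complex.ofReal_natCast]
    generalize z ^ n = w at *
    generalize starRingEnd ℂ (α 0) = a at *
    generalize starRingEnd ℂ (α 1) = b at *
    generalize α 0 = a0 at *
    generalize α 1 = a1 at *
    field_simp
    ring
  exact e3

lemma num_eq {M n : ℕ} (τ : Fin M → ℂ) (α : Fin 2 → ℂ)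
    (hτ : ∏ k, (X - C (τ k)) = ∏ j, (X ^ n - C (α j))) (z : ℂ) :
    ∏ k, (z - τ k) = ∏ j, (z ^ n - α j) := by
  have h := congrArg (Polynomial.eval z) hτ
  simpa [Polynomial.eval_prod] using h

lemma deg_eq {M n : ℕ} (hn : 1 ≤ n) (τ : Fin M → ℂ) (α : Fin 2 → ℂ)
    (hτ : ∏ k, (X - C (τ k)) = ∏ j, (X ^ n - C (α j))) : M = n * 2 := by
  have h := congrArg Polynomial.natDegree hτ
  rw [Polynomial.natDegree_prod_of_monic _ _ (fun k _ => Polynomial.monic_X_sub_C _),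
    Polynomial.natDegree_prod_of_monic _ _
      (fun j _ => Polynomial.monic_X_pow_sub_C _ (Nat.pos_iff_ne_zero.1 hn))] at h
  simp only [Polynomial.natDegree_X_sub_C, Polynomial.natDegree_X_pow_sub_C,
    Finset.sum_const, Finset.card_univ, Fintype.card_fin, smul_eq_mul, mul_one] at h
  rw [h, mul_comm]

lemma den_eq {M n : ℕ} (hn : 1 ≤ n) (τ : Fin M → ℂ) (α : Fin 2 → ℂ)
    (hτ : ∏ k, (X - C (τ k)) = ∏ j, (X ^ n - C (α j))) (z : ℂ) :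
    ∏ k, (1 - starRingEnd ℂ (τ k) * z) = ∏ j, (1 - starRingEnd ℂ (α j) * z ^ n) := by
  by_cases hz : z = 0
  · subst hz
    simp [Nat.pos_iff_ne_zero.1 hn]
  · have hM := deg_eq hn τ α hτ
    have h1 : ∏ k, (1 - starRingEnd ℂ (τ k) * z) =
        z ^ M * starRingEnd ℂ (∏ k, ((starRingEnd ℂ z)⁻¹ - τ k)) := by
      have h0 : z ^ M = ∏ _k : Fin M, z := by simp
      rw [map_prod, h0, ← Finset.prod_mul_distrib]
      refine Finset.prod_congr rfl (fun k _ => ?_)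
      simp only [map_sub, map_inv₀, Complex.conj_conj]
      rw [mul_sub, mul_inv_cancel₀ hz, mul_comm z]
    rw [h1, num_eq τ α hτ, hM, pow_mul, map_prod]
    have h2 : (z ^ n) ^ 2 = ∏ _j : Fin 2, z ^ n := by simp
    rw [h2, ← Finset.prod_mul_distrib]
    refine Finset.prod_congr rfl (fun j _ => ?_)
    simp only [map_sub, map_pow, map_inv₀, Complex.conj_conj]
    have hzn : z ^ n ≠ 0 := pow_ne_zero _ hz
    rw [mul_sub, inv_pow, mul_inv_cancel₀ hzn, mul_comm (z ^ n)]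

lemma B_eq {M n : ℕ} (hn : 1 ≤ n) (τ : Fin M → ℂ) (α : Fin 2 → ℂ)
    (hτ : ∏ k, (X - C (τ k)) = ∏ j, (X ^ n - C (α j))) (z : ℂ) :
    z * ∏ k, (z - τ k) / (1 - starRingEnd ℂ (τ k) * z) = z * F α (z ^ n) := by
  rw [Finset.prod_div_distrib, num_eq τ α hτ, den_eq hn τ α hτ, ← Finset.prod_div_distrib,
    Fin.prod_univ_two]
  rfl

/-- **The mean value inequality for all `n`-fold rotationally symmetric finite Blaschke products
with two orbits of nonzero zeros.** Let `n ≥ 1`, `α₀, α₁` in the punctured unit disc and let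
`τ₁, …, τ_M` (`M = 2n`) be all `n`-th roots of `α₀` and `α₁` (with multiplicity). Then
`B(z) = z ∏ (z - τ_k) / (1 - conj τ_k z)` has a critical point `ζ ≠ 0` in the disc, of smallest
modulus among its critical points in the disc, with `|B(ζ)| ≤ |B'(0)| |ζ|`. For `n = 1` these are
all Blaschke products of degree three of the problem (`m = 2`). -/
theorem result (M n : ℕ) (hn : 1 ≤ n) (τ : Fin M → ℂ) (α : Fin 2 → ℂ)
    (hα : ∀ j, α j ≠ 0 ∧ ‖α j‖ < 1)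
    (hτ : ∏ k, (X - C (τ k)) = ∏ j, (X ^ n - C (α j))) :
    ∃ ζ : ℂ, ζ ≠ 0 ∧ ‖ζ‖ < 1 ∧
      deriv (fun z : ℂ => z * ∏ k, (z - τ k) / (1 - starRingEnd ℂ (τ k) * z)) ζ = 0 ∧
      (∀ z : ℂ, ‖z‖ < 1 →
        deriv (fun z : ℂ => z * ∏ k, (z - τ k) / (1 - starRingEnd ℂ (τ k) * z)) z = 0 →
          ‖ζ‖ ≤ ‖z‖) ∧
      ‖ζ * ∏ k, (ζ - τ k) / (1 - starRingEnd ℂ (τ k) * ζ)‖ ≤
        ‖deriv (fun z : ℂ => z * ∏ k, (z - τ k) / (1 - starRingEnd ℂ (τ k) * z)) 0‖ * ‖ζ‖ := by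
  have hn0 : n ≠ 0 := Nat.pos_iff_ne_zero.1 hn
  obtain ⟨w, hw0, hw1, hN, hmin, hle⟩ :=
    main_ineq (n : ℝ) (by exact_mod_cast hn) (α 0) (α 1) (hα 0).2 (hα 1).2 (hα 0).1 (hα 1).1
  obtain ⟨ζ, hζ⟩ := IsAlgClosed.exists_pow_nat_eq w (Nat.pos_of_ne_zero hn0)
  have hnorm : ‖ζ‖ ^ n = ‖w‖ := by rw [← norm_pow, hζ]
  have hζ0 : ζ ≠ 0 := by
    rintro rfl
    rw [zero_pow hn0] at hζ
    exact hw0 hζ.symm
  have hζ1 : ‖ζ‖ < 1 := by
    by_contra hge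
    push Not at hge
    have := one_le_pow₀ (n := n) hge
    linarith
  have hB : (fun z : ℂ => z * ∏ k, (z - τ k) / (1 - starRingEnd ℂ (τ k) * z)) =
      fun z => z * F α (z ^ n) := by
    funext z
    exact B_eq hn τ α hτ z
  have hd : ∀ z : ℂ, ‖z‖ < 1 → deriv (fun z : ℂ => z * F α (z ^ n)) z =
      Nn n (α 0 * α 1) (α 0 + α 1) (z ^ n) /
        ((1 - starRingEnd ℂ (α 0) * z ^ n) * (1 - starRingEnd ℂ (α 1) * z ^ n)) ^ 2 :=
    fun z hz => (hasDeriv n hn α (fun j => (hα j).2) z hz).deriv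
  rw [hB]
  refine ⟨ζ, hζ0, hζ1, ?_, ?_, ?_⟩
  · rw [hd ζ hζ1, hζ, hN, zero_div]
  · intro z hz hz0
    rw [hd z hz] at hz0
    have hzn : ‖z ^ n‖ < 1 := by
      rw [norm_pow]
      exact pow_lt_one₀ (norm_nonneg z) hz hn0
    have d0 := den_ne (α 0) (z ^ n) (hα 0).2 hzn
    have d1 := den_ne (α 1) (z ^ n) (hα 1).2 hzn
    have h1 := hmin (z ^ n)
      ((div_eq_zero_iff.1 hz0).resolve_right (pow_ne_zero _ (mul_ne_zero d0 d1)))
    rw [norm_pow, ← hnorm] at h1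
    exact (pow_le_pow_iff_left₀ (norm_nonneg _) (norm_nonneg _) hn0).1 h1
  · rw [hd 0 (by simp), B_eq hn τ α hτ ζ, hζ]
    have e0 : Nn n (α 0 * α 1) (α 0 + α 1) (0 ^ n) /
        ((1 - starRingEnd ℂ (α 0) * 0 ^ n) * (1 - starRingEnd ℂ (α 1) * 0 ^ n)) ^ 2 =
        α 0 * α 1 := by
      unfold Nn; simp [hn0]
    rw [e0]
    have d0 := den_ne (α 0) w (hα 0).2 hw1
    have d1 := den_ne (α 1) w (hα 1).2 hw1
    have e1 : F α w = (w ^ 2 - (α 0 + α 1) * w + α 0 * α 1) /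
        (1 - starRingEnd ℂ (α 0 + α 1) * w + starRingEnd ℂ (α 0 * α 1) * w ^ 2) := by
      unfold F
      rw [div_mul_div_comm, map_add, map_mul]
      congr 1 <;> ring
    have d2 : 1 - starRingEnd ℂ (α 0 + α 1) * w + starRingEnd ℂ (α 0 * α 1) * w ^ 2 ≠ 0 := by
      have e2 : 1 - starRingEnd ℂ (α 0 + α 1) * w + starRingEnd ℂ (α 0 * α 1) * w ^ 2 =
          (1 - starRingEnd ℂ (α 0) * w) * (1 - starRingEnd ℂ (α 1) * w) := by
        rw [map_add, map_mul]; ring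
      rw [e2]
      exact mul_ne_zero d0 d1
    rw [e1, norm_mul, norm_div, mul_comm]
    refine mul_le_mul_of_nonneg_right ?_ (norm_nonneg _)
    rw [div_le_iff₀ (norm_pos_iff.2 d2)]
    exact hle

end Pool.Agent.Results.MP_c3cac0_an.TwoOrbits
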